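import Mathlib
import Pool.Agent.Lib.MP_76989b_gt.Defs
import Pool.Agent.Lib.MP_76989b_gt.Selection
import Pool.Agent.Lib.MP_76989b_gt.FU

set_option autoImplicit false

open Set Filter Topology Pool.Agent.Lib.MP_76989b_gt

namespace Pool.Agent.Results.MP_76989b_gt.FUAtContinuous

universe u

/-- For every Hausdorff space `X` with the selection principle `S_1(Ω^s, Γ^s)` (read literally or
under the customary conventions), `Q_p(X, ℝ)` is Fréchet-Urysohn at each continuous function. -/
theorem result (X : Type u) [TopologicalSpace X] [T2Space X]
    (hS : S1OmegaGamma X ∨ S1OmegaGammaProper X) (f : Qp X) (hf : Continuous f.1) :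
    FrechetUrysohnAt f := by
  have hweak : S1Weak X := hS.elim S1OmegaGamma.weak S1OmegaGammaProper.weak
  exact frechetUrysohnAt_of_continuous hweak.strong f.1 f.2 hf

end Pool.Agent.Results.MP_76989b_gt.FUAtContinuous
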