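import Mathlib
import Pool.Agent.Lib.MP_76989b_gt.Defs
import Pool.Agent.Lib.MP_76989b_gt.Ultra
import Pool.Agent.Lib.MP_76989b_gt.Space
import Pool.Agent.Lib.MP_76989b_gt.Selection

set_option autoImplicit false

open Set Filter Topology Pool.Agent.Lib.MP_76989b_gt

namespace Pool.Agent.Results.MP_76989b_gt.Q1Negative

/-- Negative answer to Q1, in ZFC: there is a Hausdorff space `X` with the selection principle
`S_1(Ω^s, Γ^s)` (both literally as stated and under the customary conventions that `X` is not a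
member of an `ω`-cover and `γ`-covers are infinite) and a point `f` of `Q_p(X, ℝ)` at which
`Q_p(X, ℝ)` is not Fréchet-Urysohn. -/
theorem result : ∃ (X : Type) (_ : TopologicalSpace X), T2Space X ∧
    S1OmegaGamma X ∧ S1OmegaGammaProper X ∧
    ∃ f : Qp X, ¬ FrechetUrysohnAt f := by
  obtain ⟨p, x, hinj, hne, hc, hp, hx⟩ := exists_ultrafilters
  have hsel : S1Strong (Sp (HH p x)) := by
    intro U hU
    refine exists_selection (range (fun b : Bool => Sp.lim (HH p x) (Sum.inr b)))
      (finite_range _) ?_ U hU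
    intro A hA hPA
    exact HH_cocountable p x hc A hA hPA
  refine ⟨Sp (HH p x), inferInstance, HH_t2 p x hinj hne hp hx, ?_, ?_, ?_⟩
  · intro U hU
    obtain ⟨V, hV, hVx⟩ := hsel U hU
    exact ⟨V, hV, range_mem_gammaS hU hV hVx⟩
  · intro U hU
    obtain ⟨V, hV, hVx⟩ := hsel U (fun n => (hU n).1)
    exact ⟨V, hV, range_mem_gammaS (fun n => (hU n).1) hV hVx,
      range_infinite (fun n => (hU n).2) hV hVx⟩
  · exact ⟨_, not_frechetUrysohnAt p x⟩

end Pool.Agent.Results.MP_76989b_gt.Q1Negative
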