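import Mathlib
import Pool.Agent.Lib.MP_76989b_gt.Defs
import Pool.Agent.Lib.MP_76989b_gt.Selection
import Pool.Agent.Lib.MP_76989b_gt.FU
import Pool.Agent.Lib.MP_76989b_gt.Whyburn

set_option autoImplicit false

open Set Filter Topology Pool.Agent.Lib.MP_76989b_gt

namespace Pool.Agent.Results.MP_76989b_gt.Q2Positive

universe u

/-- Positive answer to Q2: for every open Whyburn Hausdorff space `X` with the selection principle
`S_1(Ω^s, Γ^s)` (read literally or under the customary conventions), `Q_p(X, ℝ)` is
Fréchet-Urysohn at each of its points. -/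
theorem result (X : Type u) [TopologicalSpace X] [T2Space X] (hW : OpenWhyburn X)
    (hS : S1OmegaGamma X ∨ S1OmegaGammaProper X) (f : Qp X) : FrechetUrysohnAt f := by
  have hweak : S1Weak X := hS.elim S1OmegaGamma.weak S1OmegaGammaProper.weak
  exact frechetUrysohnAt_of_openWhyburn hW hweak.strong f

end Pool.Agent.Results.MP_76989b_gt.Q2Positive
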